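import Pool.Agent.V5helper22.TMF.Lev

set_option autoImplicit false

namespace Pool.Agent.V5helper22.TMF

open Pool.Agent.R488.TM

/-- the cross product of the pairs number `p` and `m` -/
def D (p m : ℕ) : ℤ := X p * Y m - X m * Y p

lemma X_pos {m : ℕ} (hm : 1 ≤ m) : 1 ≤ X m := by
  obtain ⟨h1, h2, h3, h4⟩ := XY_pos m
  have := h4 hm
  omega

/-- the difference `|X - Y|` at the end of the step of the level `j` -/
def E (j m : ℕ) : ℤ := A j * X (4 ^ j * m) + (B j - A j) * Y (4 ^ j * m)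

lemma E_nonneg (j m : ℕ) : 0 ≤ E j m := by
  obtain ⟨h1, h2, h3, h4⟩ := facts j
  obtain ⟨g1, g2, -, -⟩ := XY_pos (4 ^ j * m)
  unfold E
  have : 0 ≤ A j * X (4 ^ j * m) := mul_nonneg (by omega) g1
  have : 0 ≤ (B j - A j) * Y (4 ^ j * m) := mul_nonneg (by omega) (by omega)
  omega

lemma E_pos (j m : ℕ) (hm : 1 ≤ m) : 1 ≤ E j m := by
  obtain ⟨h1, h2, h3, h4⟩ := facts j
  obtain ⟨g1, g2, -, -⟩ := XY_pos (4 ^ j * m)
  have g3 : 1 ≤ X (4 ^ j * m) := X_pos (Nat.mul_pos (by positivity) hm)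
  unfold E
  have : 1 ≤ A j * X (4 ^ j * m) := by nlinarith
  have : 0 ≤ (B j - A j) * Y (4 ^ j * m) := mul_nonneg (by omega) (by omega)
  omega

lemma X_step (j m : ℕ) : X (4 ^ j * (m + 1)) = Y (4 ^ j * (m + 1)) + t m * t (m + 1) * E j m :=
  (step j m).2

/-- the steps have the determinant one -/
lemma det_step (j m n : ℕ) : E j m * Y (4 ^ j * (n + 1)) - E j n * Y (4 ^ j * (m + 1)) =
    D (4 ^ j * m) (4 ^ j * n) := by
  obtain ⟨-, -, -, h4⟩ := facts j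
  rw [(step j m).1, (step j n).1]
  unfold E D
  linear_combination (X (4 ^ j * m) * Y (4 ^ j * n) - X (4 ^ j * n) * Y (4 ^ j * m)) * h4

lemma tt_even (u : ℕ) : t (2 * u) * t (2 * u + 1) = -1 := by
  rw [t_odd, t_even]
  linear_combination -t_sq u

lemma t01 : t 0 * t (0 + 1) = -1 := by rw [zero_add, t_zero, t_one]; norm_num
lemma t12 : t 1 * t (1 + 1) = 1 := by
  rw [show (1 : ℕ) + 1 = 2 from rfl, t_one, t_two]; norm_num
lemma t23 : t 2 * t (2 + 1) = -1 := by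
  rw [show (2 : ℕ) + 1 = 3 from rfl, t_two, t_three]; norm_num

lemma D_two_pos (j m : ℕ) (h : t m * t (m + 1) = 1) :
    D (4 ^ j * 2) (4 ^ j * (m + 1)) = D (4 ^ j * 1) (4 ^ j * m) := by
  have h1 := X_step j 1
  rw [t12] at h1
  have h2 := X_step j m
  rw [h] at h2
  have h3 := det_step j 1 m
  unfold D at h3 ⊢
  rw [show (1 : ℕ) + 1 = 2 from rfl] at h1 h3
  rw [h1, h2]
  linear_combination h3

lemma D_two_neg (j m : ℕ) (h : t m * t (m + 1) = -1) :
    D (4 ^ j * 2) (4 ^ j * (m + 1)) =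
      E j 1 * Y (4 ^ j * (m + 1)) + E j m * Y (4 ^ j * 2) := by
  have h1 := X_step j 1
  rw [t12] at h1
  have h2 := X_step j m
  rw [h] at h2
  unfold D
  rw [show (1 : ℕ) + 1 = 2 from rfl] at h1
  rw [h1, h2]
  ring

lemma D_one_neg (j m : ℕ) (h : t m * t (m + 1) = -1) :
    D (4 ^ j * 1) (4 ^ j * (m + 1)) = X (4 ^ j * m) := by
  have h1 := X_step j 0
  rw [t01] at h1
  have h2 := X_step j m
  rw [h] at h2
  have h3 := det_step j m 0
  unfold D at h3 ⊢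
  rw [zero_add] at h1 h3
  rw [mul_zero, X_zero, Y_zero] at h3
  rw [h1, h2]
  linear_combination h3

/-- the cross product with the last pair -/
lemma D_three_neg (j m : ℕ) (h : t m * t (m + 1) = -1) :
    D (4 ^ j * (m + 1)) (4 ^ j * 3) = D (4 ^ j * 2) (4 ^ j * m) := by
  have h1 := X_step j 2
  rw [t23] at h1
  have h2 := X_step j m
  rw [h] at h2
  have h3 := det_step j 2 m
  unfold D at h3 ⊢
  rw [show (2 : ℕ) + 1 = 3 from rfl] at h1 h3
  rw [h1, h2]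
  linear_combination h3

lemma D_three_pos (j m : ℕ) (h : t m * t (m + 1) = 1) :
    D (4 ^ j * (m + 1)) (4 ^ j * 3) =
      E j 2 * Y (4 ^ j * (m + 1)) + E j m * Y (4 ^ j * 3) := by
  have h1 := X_step j 2
  rw [t23] at h1
  have h2 := X_step j m
  rw [h] at h2
  unfold D
  rw [show (2 : ℕ) + 1 = 3 from rfl] at h1
  rw [h1, h2]
  ring

/-- a bound for the growth -/
def K (j : ℕ) : ℤ := B j + C j

lemma K_pos (j : ℕ) : 1 ≤ K j := by
  obtain ⟨h1, h2, h3, h4⟩ := facts j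
  unfold K
  omega

lemma Y_growth (j m : ℕ) : Y (4 ^ j * (m + 1)) ≤ K j * Y (4 ^ j * m) := by
  obtain ⟨h1, h2, h3, h4⟩ := facts j
  obtain ⟨g1, g2, g3, -⟩ := XY_pos (4 ^ j * m)
  rw [(step j m).1]
  unfold K
  nlinarith

lemma Y_le_X {m : ℕ} (hm : 1 ≤ m) : Y m ≤ 3 * X m := (XY_pos m).2.2.2 hm

lemma Y_one (m : ℕ) : 1 ≤ Y m := (XY_pos m).2.1

lemma D_two_nonneg (j m : ℕ) : 0 ≤ D (4 ^ j * 2) (4 ^ j * m) := by
  rcases Nat.eq_zero_or_pos m with rfl | hm
  · unfold D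
    rw [mul_zero, X_zero, Y_zero]
    have := (XY_pos (4 ^ j * 2)).1
    omega
  obtain ⟨m, rfl⟩ : ∃ n, m = n + 1 := ⟨m - 1, by omega⟩
  rcases tt_cases m (m + 1) with h | h
  · rw [D_two_pos j m h]
    rcases Nat.even_or_odd' m with ⟨u, rfl | rfl⟩
    · rw [tt_even] at h; omega
    · rw [D_one_neg j (2 * u) (tt_even u)]
      exact (XY_pos _).1
  · rw [D_two_neg j m h]
    have h1 := E_nonneg j 1
    have h2 := E_nonneg j m
    have h3 := Y_one (4 ^ j * (m + 1))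
    have h4 := Y_one (4 ^ j * 2)
    have : 0 ≤ E j 1 * Y (4 ^ j * (m + 1)) := mul_nonneg h1 (by omega)
    have : 0 ≤ E j m * Y (4 ^ j * 2) := mul_nonneg h2 (by omega)
    omega

lemma D_two_gap (j m : ℕ) (hm : 3 ≤ m) :
    Y (4 ^ j * m) ≤ 3 * K j ^ 2 * D (4 ^ j * 2) (4 ^ j * m) := by
  obtain ⟨m, rfl⟩ : ∃ n, m = n + 1 := ⟨m - 1, by omega⟩
  have hK := K_pos j
  have hY := Y_one (4 ^ j * (m + 1))
  rcases tt_cases m (m + 1) with h | h
  · rw [D_two_pos j m h]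
    rcases Nat.even_or_odd' m with ⟨u, rfl | rfl⟩
    · rw [tt_even] at h; omega
    · rw [D_one_neg j (2 * u) (tt_even u)]
      have h1 := Y_growth j (2 * u + 1)
      have h2 := Y_growth j (2 * u)
      have h3 : Y (4 ^ j * (2 * u)) ≤ 3 * X (4 ^ j * (2 * u)) :=
        Y_le_X (Nat.mul_pos (by positivity) (by omega))
      calc Y (4 ^ j * (2 * u + 1 + 1)) ≤ K j * Y (4 ^ j * (2 * u + 1)) := h1
        _ ≤ K j * (K j * (3 * X (4 ^ j * (2 * u)))) := by gcongr; exact h2.trans (by gcongr)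
        _ = _ := by ring
  · rw [D_two_neg j m h]
    have h1 := E_pos j 1 le_rfl
    have h2 := E_nonneg j m
    have h4 := Y_one (4 ^ j * 2)
    have h5 : 0 ≤ E j m * Y (4 ^ j * 2) := mul_nonneg h2 (by omega)
    have h6 : Y (4 ^ j * (m + 1)) ≤ E j 1 * Y (4 ^ j * (m + 1)) := by nlinarith
    have h7 : 1 ≤ 3 * K j ^ 2 := by nlinarith
    nlinarith

lemma D_three_nonneg (j m : ℕ) (hm : 1 ≤ m) : 0 ≤ D (4 ^ j * m) (4 ^ j * 3) := by
  obtain ⟨m, rfl⟩ : ∃ n, m = n + 1 := ⟨m - 1, by omega⟩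
  rcases tt_cases m (m + 1) with h | h
  · rw [D_three_pos j m h]
    have h1 := E_nonneg j 2
    have h2 := E_nonneg j m
    have h3 := Y_one (4 ^ j * (m + 1))
    have h4 := Y_one (4 ^ j * 3)
    have : 0 ≤ E j 2 * Y (4 ^ j * (m + 1)) := mul_nonneg h1 (by omega)
    have : 0 ≤ E j m * Y (4 ^ j * 3) := mul_nonneg h2 (by omega)
    omega
  · rw [D_three_neg j m h]
    exact D_two_nonneg j m

lemma D_three_gap (j m : ℕ) (hm : 4 ≤ m) :
    Y (4 ^ j * m) ≤ 3 * K j ^ 3 * D (4 ^ j * m) (4 ^ j * 3) := by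
  obtain ⟨m, rfl⟩ : ∃ n, m = n + 1 := ⟨m - 1, by omega⟩
  have hK := K_pos j
  have hY := Y_one (4 ^ j * (m + 1))
  rcases tt_cases m (m + 1) with h | h
  · rw [D_three_pos j m h]
    have h1 := E_pos j 2 (by norm_num)
    have h2 := E_nonneg j m
    have h4 := Y_one (4 ^ j * 3)
    have h5 : 0 ≤ E j m * Y (4 ^ j * 3) := mul_nonneg h2 (by omega)
    have h6 : Y (4 ^ j * (m + 1)) ≤ E j 2 * Y (4 ^ j * (m + 1)) := by nlinarith
    have h7 : 1 ≤ 3 * K j ^ 3 := by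
      have : 1 ≤ K j ^ 3 := one_le_pow₀ hK
      omega
    nlinarith
  · rw [D_three_neg j m h]
    have h1 := D_two_gap j m (by omega)
    have h2 := Y_growth j m
    calc Y (4 ^ j * (m + 1)) ≤ K j * Y (4 ^ j * m) := h2
      _ ≤ K j * (3 * K j ^ 2 * D (4 ^ j * 2) (4 ^ j * m)) := by gcongr
      _ = _ := by ring

/-- The pairs number `2 ^ r n`, `n ≥ 1`, lie between two of them. -/
lemma cone (r : ℕ) : ∃ p q : ℕ, ∃ L : ℤ, p = 4 ^ (r / 2) * 2 ∧ 2 ^ r ∣ p ∧ 2 ^ r ∣ q ∧ 2 ≤ p ∧ 2 ≤ q ∧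
    1 ≤ L ∧ Y p < X p ∧ X q < Y q ∧
    (∀ n, 1 ≤ n → 0 ≤ D p (2 ^ r * n) ∧ 0 ≤ D (2 ^ r * n) q) ∧
    (∀ n, 8 ≤ n → Y (2 ^ r * n) ≤ L * D p (2 ^ r * n) ∧ Y (2 ^ r * n) ≤ L * D (2 ^ r * n) q) := by
  have hp : ∀ j, Y (4 ^ j * 2) < X (4 ^ j * 2) := by
    intro j
    have h1 := X_step j 1
    rw [t12, show (1 : ℕ) + 1 = 2 from rfl] at h1
    have := E_pos j 1 le_rfl
    omega
  have hq : ∀ j, X (4 ^ j * 3) < Y (4 ^ j * 3) := by
    intro j
    have h1 := X_step j 2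
    rw [t23, show (2 : ℕ) + 1 = 3 from rfl] at h1
    have := E_pos j 2 (by norm_num)
    omega
  have h4 : ∀ j : ℕ, 1 ≤ 4 ^ j := fun j => Nat.one_le_pow _ _ (by norm_num)
  rcases Nat.even_or_odd' r with ⟨j, rfl | rfl⟩
  · have e : (2 : ℕ) ^ (2 * j) = 4 ^ j := by rw [pow_mul]; norm_num
    have e2 : 2 * j / 2 = j := by omega
    rw [e, e2]
    have hK := K_pos j
    have hK3 : 1 ≤ K j ^ 3 := one_le_pow₀ hK
    refine ⟨4 ^ j * 2, 4 ^ j * 3, 3 * K j ^ 3, rfl, Dvd.intro _ rfl, Dvd.intro _ rfl,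
      by have := h4 j; omega, by have := h4 j; omega, by omega, hp j, hq j,
      fun n hn => ⟨D_two_nonneg j n, D_three_nonneg j n hn⟩,
      fun n hn => ⟨?_, D_three_gap j n (by omega)⟩⟩
    refine (D_two_gap j n (by omega)).trans ?_
    have h5 := D_two_nonneg j n
    have h6 : K j ^ 2 ≤ K j ^ 3 := pow_le_pow_right₀ hK (by norm_num)
    nlinarith
  · have e : (2 : ℕ) ^ (2 * j + 1) = 4 ^ j * 2 := by rw [pow_succ, pow_mul]; norm_num
    have e2 : (2 * j + 1) / 2 = j := by omega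
    rw [e, e2]
    have hK := K_pos j
    have hK' := K_pos (j + 1)
    have hK3 : 1 ≤ K j ^ 2 := one_le_pow₀ hK
    have hK3' : 1 ≤ K (j + 1) ^ 3 := one_le_pow₀ hK'
    -- odd multiples
    have hodd : ∀ v : ℕ, Y (4 ^ j * 2 * (2 * v + 1)) ≤
        D (4 ^ j * 2 * (2 * v + 1)) (4 ^ (j + 1) * 3) := by
      intro v
      have e3 : 4 ^ j * 2 * (2 * v + 1) = 4 ^ j * (4 * v + 1 + 1) := by ring
      have h1 := X_step j (4 * v + 1)
      have h2 : t (4 * v + 1) * t (4 * v + 1 + 1) = 1 := by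
        rw [show 4 * v + 1 + 1 = 4 * v + 2 by ring, t41, t42]
        linear_combination t_sq v
      rw [h2, ← e3] at h1
      have h3 := E_nonneg j (4 * v + 1)
      have h5 := hq (j + 1)
      have h6 := Y_one (4 ^ j * 2 * (2 * v + 1))
      have h7 := Y_one (4 ^ (j + 1) * 3)
      unfold D
      rw [h1]
      nlinarith
    refine ⟨4 ^ j * 2, 4 ^ (j + 1) * 3, 3 * K j ^ 2 + 3 * K (j + 1) ^ 3, rfl, dvd_rfl, ?_,
      by have := h4 j; omega, by have := h4 (j + 1); omega, by omega, hp j, hq (j + 1), ?_, ?_⟩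
    · exact ⟨6, by ring⟩
    · intro n hn
      refine ⟨by rw [mul_assoc]; exact D_two_nonneg j _, ?_⟩
      rcases Nat.even_or_odd' n with ⟨v, rfl | rfl⟩
      · rw [show 4 ^ j * 2 * (2 * v) = 4 ^ (j + 1) * v by ring]
        exact D_three_nonneg (j + 1) v (by omega)
      · have := hodd v
        have := Y_one (4 ^ j * 2 * (2 * v + 1))
        omega
    · intro n hn
      constructor
      · have h5 := D_two_gap j (2 * n) (by omega)
        have h6 := D_two_nonneg j (2 * n)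
        rw [mul_assoc]
        nlinarith
      · rcases Nat.even_or_odd' n with ⟨v, rfl | rfl⟩
        · rw [show 4 ^ j * 2 * (2 * v) = 4 ^ (j + 1) * v by ring]
          have h5 := D_three_gap (j + 1) v (by omega)
          have h6 := D_three_nonneg (j + 1) v (by omega)
          nlinarith
        · have h5 := hodd v
          have h6 := Y_one (4 ^ j * 2 * (2 * v + 1))
          nlinarith

end Pool.Agent.V5helper22.TMF
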