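import Pool.Agent.V5helper22.TMF.Cone

set_option autoImplicit false

namespace Pool.Agent.V5helper22.TMF

open Pool.Agent.R488.TM
open Pool.Agent.Results.MP_e68cb8_nt.TwoSevenths (abs_h)

/-- the absolute value of `h` at the place `i` of a block with the pair `v` at its beginning -/
def G (v : ℤ × ℤ) (i : ℕ) : ℤ :=
  if i % 4 = 0 then (W v (i / 4)).1
  else if i % 4 = 1 then (W v (i / 4)).2
  else if i % 4 = 2 then (W v (i / 4)).1 + (W v (i / 4)).2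
  else (W v (i / 4)).1

lemma G0 (v : ℤ × ℤ) (j : ℕ) : G v (4 * j) = (W v j).1 := by
  have h1 : 4 * j % 4 = 0 := by omega
  have h2 : 4 * j / 4 = j := by omega
  simp [G, h1, h2]

lemma G1 (v : ℤ × ℤ) (j : ℕ) : G v (4 * j + 1) = (W v j).2 := by
  have h1 : (4 * j + 1) % 4 = 1 := by omega
  have h2 : (4 * j + 1) / 4 = j := by omega
  simp [G, h1, h2]

lemma G2 (v : ℤ × ℤ) (j : ℕ) : G v (4 * j + 2) = (W v j).1 + (W v j).2 := by
  have h1 : (4 * j + 2) % 4 = 2 := by omega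
  have h2 : (4 * j + 2) / 4 = j := by omega
  simp [G, h1, h2]

lemma G3 (v : ℤ × ℤ) (j : ℕ) : G v (4 * j + 3) = (W v j).1 := by
  have h1 : (4 * j + 3) % 4 = 3 := by omega
  have h2 : (4 * j + 3) / 4 = j := by omega
  simp [G, h1, h2]

lemma W_lin (v : ℤ × ℤ) (j : ℕ) :
    (W v j).1 = v.1 * (W (1, 0) j).1 + v.2 * (W (0, 1) j).1 ∧
    (W v j).2 = v.1 * (W (1, 0) j).2 + v.2 * (W (0, 1) j).2 := by
  induction j with
  | zero => simp [W]
  | succ j ih =>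
    obtain ⟨h1, h2⟩ := ih
    simp only [W]
    rw [h1, h2]
    constructor <;> ring

lemma W_nonneg (v : ℤ × ℤ) (h1 : 0 ≤ v.1) (h2 : 0 ≤ v.2) (j : ℕ) :
    0 ≤ (W v j).1 ∧ 0 ≤ (W v j).2 := by
  induction j with
  | zero => exact ⟨h1, h2⟩
  | succ j ih =>
    obtain ⟨h1, h2⟩ := ih
    simp only [W]
    rcases tt_cases (j + 1) j with h | h <;> rw [h] <;> constructor <;> omega

lemma W_det (j : ℕ) :
    ((W (1, 0) j).1 * (W (0, 1) j).2 - (W (1, 0) j).2 * (W (0, 1) j).1) ^ 2 = 1 := by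
  induction j with
  | zero => simp [W]
  | succ j ih =>
    simp only [W]
    have h : (t (j + 1) * t j) ^ 2 = 1 := by
      rw [mul_pow, pow_two, pow_two, t_sq, t_sq]; norm_num
    calc _ = (t (j + 1) * t j) ^ 2 *
        ((W (1, 0) j).1 * (W (0, 1) j).2 - (W (1, 0) j).2 * (W (0, 1) j).1) ^ 2 := by ring
      _ = 1 := by rw [h, ih]; norm_num

lemma four_cases (i : ℕ) : ∃ j, i = 4 * j ∨ i = 4 * j + 1 ∨ i = 4 * j + 2 ∨ i = 4 * j + 3 :=
  ⟨i / 4, by omega⟩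

lemma G_lin (v : ℤ × ℤ) (i : ℕ) : G v i = G (1, 0) i * v.1 + G (0, 1) i * v.2 := by
  obtain ⟨j, rfl | rfl | rfl | rfl⟩ := four_cases i
  · rw [G0, G0, G0, (W_lin v j).1]; ring
  · rw [G1, G1, G1, (W_lin v j).2]; ring
  · rw [G2, G2, G2, (W_lin v j).1, (W_lin v j).2]; ring
  · rw [G3, G3, G3, (W_lin v j).1]; ring

lemma G_nonneg (v : ℤ × ℤ) (h1 : 0 ≤ v.1) (h2 : 0 ≤ v.2) (i : ℕ) : 0 ≤ G v i := by
  obtain ⟨j, rfl | rfl | rfl | rfl⟩ := four_cases i <;>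
    obtain ⟨g1, g2⟩ := W_nonneg v h1 h2 j
  · rw [G0]; exact g1
  · rw [G1]; exact g2
  · rw [G2]; omega
  · rw [G3]; exact g1

/-- two consecutive forms are linearly independent -/
lemma G_det (i : ℕ) :
    (G (1, 0) (i + 1) * G (0, 1) i - G (1, 0) i * G (0, 1) (i + 1)) ^ 2 = 1 := by
  obtain ⟨j, rfl | rfl | rfl | rfl⟩ := four_cases i <;> have h := W_det j
  · rw [G0, G0, G1, G1]; linear_combination h
  · rw [show 4 * j + 1 + 1 = 4 * j + 2 by ring, G1, G1, G2, G2]; linear_combination h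
  · rw [show 4 * j + 2 + 1 = 4 * j + 3 by ring, G2, G2, G3, G3]; linear_combination h
  · rw [show 4 * j + 3 + 1 = 4 * (j + 1) by ring, G3, G3, G0, G0]
    simp only [W]
    linear_combination h

lemma h_block (r m i : ℕ) (hm : 2 ^ r ∣ m) (hi : i < 4 * 2 ^ r) :
    |h (4 * m + i)| = G (X m, Y m) i := by
  have hW : ∀ j, j < 2 ^ r → (X (m + j), Y (m + j)) = W (X m, Y m) j := by
    intro j hj
    have := W_add hm (0, 1) j hj
    unfold X Y
    rw [this]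
  obtain ⟨j, rfl | rfl | rfl | rfl⟩ := four_cases i <;> have hj := hW j (by omega)
  · rw [G0, ← hj, ← Nat.mul_add, (abs_h _).1]
  · rw [G1, ← hj, show 4 * m + (4 * j + 1) = 4 * (m + j) + 1 by ring, (abs_h _).2.1]
  · rw [G2, ← hj, show 4 * m + (4 * j + 2) = 4 * (m + j) + 2 by ring, (abs_h _).2.2.1]
  · rw [G3, ← hj, show 4 * m + (4 * j + 3) = 4 * (m + j) + 3 by ring, (abs_h _).2.2.2]

/-- the term before a multiple of four -/
lemma h_before (m : ℕ) : |h (4 * (m + 1) - 1)| = |X (m + 1) - Y (m + 1)| := by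
  rw [show 4 * (m + 1) - 1 = 4 * m + 3 by omega, (abs_h m).2.2.2, X_succ, Y_succ]
  obtain ⟨h1, -⟩ := XY_pos m
  rcases tt_cases (m + 1) m with h | h <;> rw [h]
  · rw [show (1 + 1) * X m + Y m - (X m + Y m) = X m by ring, abs_of_nonneg h1]
  · rw [show (1 + -1) * X m + Y m - (X m + Y m) = -X m by ring, abs_neg, abs_of_nonneg h1]

lemma h_at (m : ℕ) : |h (4 * m)| = X m := (abs_h m).1

/-- `h n ≠ 0` for `n ≥ 4` -/
lemma h_pos {n : ℕ} (hn : 4 ≤ n) : 1 ≤ |h n| := by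
  obtain ⟨m, hm⟩ := four_cases n
  have h1 : 1 ≤ X m := X_pos (by omega)
  have h2 := Y_one m
  rcases hm with rfl | rfl | rfl | rfl
  · rw [(abs_h m).1]; exact h1
  · rw [(abs_h m).2.1]; exact h2
  · rw [(abs_h m).2.2.1]; omega
  · rw [(abs_h m).2.2.2]; exact h1

/-- consecutive terms have bounded ratios -/
lemma h_le {n : ℕ} (hn : 4 ≤ n) : |h (n + 1)| ≤ 5 * |h n| := by
  obtain ⟨m, hm⟩ := four_cases n
  have h1 : 1 ≤ X m := X_pos (by omega)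
  have h2 : Y m ≤ 3 * X m := Y_le_X (by omega)
  have h3 := Y_one m
  rcases hm with rfl | rfl | rfl | rfl
  · rw [(abs_h m).1, (abs_h m).2.1]; omega
  · rw [show 4 * m + 1 + 1 = 4 * m + 2 by ring, (abs_h m).2.1, (abs_h m).2.2.1]
    have := (XY_pos m).2.2.1
    omega
  · rw [show 4 * m + 2 + 1 = 4 * m + 3 by ring, (abs_h m).2.2.1, (abs_h m).2.2.2]; omega
  · rw [show 4 * m + 3 + 1 = 4 * (m + 1) by ring, (abs_h m).2.2.2, (abs_h (m + 1)).1, X_succ]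
    rcases tt_cases (m + 1) m with h | h <;> rw [h] <;> omega

/-- the ratio of consecutive terms -/
noncomputable def rho (n : ℕ) : ℝ := |(h n : ℝ)| / |(h (n - 1) : ℝ)|

lemma rho_succ (n : ℕ) : rho (n + 1) = ((|h (n + 1)| : ℤ) : ℝ) / ((|h n| : ℤ) : ℝ) := by
  unfold rho
  rw [Nat.add_sub_cancel, Int.cast_abs, Int.cast_abs]

/-- The minimum of the ratios is attained, and it is not a limit point. -/
def Att (k i : ℕ) : Prop :=
  ∃ n₀ : ℕ, 4 ≤ 2 ^ k * n₀ + i ∧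
    (∀ n, 4 ≤ 2 ^ k * n + i → rho (2 ^ k * n₀ + i + 1) ≤ rho (2 ^ k * n + i + 1)) ∧
    ∃ c : ℝ, rho (2 ^ k * n₀ + i + 1) < c ∧ ∃ n₁ : ℕ, ∀ n, n₁ ≤ n → c ≤ rho (2 ^ k * n + i + 1)

lemma att_intro {k i n₀ n₁ : ℕ} (h0 : 4 ≤ 2 ^ k * n₀ + i) (d L : ℤ) (hd : 0 < d) (hL : 0 < L)
    (F : ℕ → ℤ)
    (hF : ∀ n, 4 ≤ 2 ^ k * n + i → 0 ≤ F n ∧ F n ≤ d * (|h (2 ^ k * n + i + 1)| *
      |h (2 ^ k * n₀ + i)| - |h (2 ^ k * n₀ + i + 1)| * |h (2 ^ k * n + i)|))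
    (hE : ∀ n, n₁ ≤ n → |h (2 ^ k * n + i)| ≤ L * F n) : Att k i := by
  have hp0 : (1 : ℝ) ≤ ((|h (2 ^ k * n₀ + i)| : ℤ) : ℝ) := by exact_mod_cast h_pos h0
  have hdR : (0 : ℝ) < d := by exact_mod_cast hd
  have hLR : (0 : ℝ) < L := by exact_mod_cast hL
  have key : ∀ n, 4 ≤ 2 ^ k * n + i → rho (2 ^ k * n + i + 1) - rho (2 ^ k * n₀ + i + 1) =
      (((|h (2 ^ k * n + i + 1)| * |h (2 ^ k * n₀ + i)| -
        |h (2 ^ k * n₀ + i + 1)| * |h (2 ^ k * n + i)| : ℤ)) : ℝ) /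
        (((|h (2 ^ k * n + i)| : ℤ) : ℝ) * ((|h (2 ^ k * n₀ + i)| : ℤ) : ℝ)) := by
    intro n hn
    have hp : (1 : ℝ) ≤ ((|h (2 ^ k * n + i)| : ℤ) : ℝ) := by exact_mod_cast h_pos hn
    rw [rho_succ, rho_succ, div_sub_div _ _ (by positivity) (by positivity), Int.cast_sub,
      Int.cast_mul, Int.cast_mul]
    congr 1
    ring
  refine ⟨n₀, h0, fun n hn => ?_, rho (2 ^ k * n₀ + i + 1) +
    1 / (d * L * ((|h (2 ^ k * n₀ + i)| : ℤ) : ℝ)), ?_, n₁ + 4, fun n hn => ?_⟩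
  · have h1 := key n hn
    obtain ⟨h2, h3⟩ := hF n hn
    have h4 : 0 ≤ (|h (2 ^ k * n + i + 1)| * |h (2 ^ k * n₀ + i)| -
        |h (2 ^ k * n₀ + i + 1)| * |h (2 ^ k * n + i)|) := by
      by_contra hcon
      push Not at hcon
      nlinarith
    have h5 : 0 ≤ rho (2 ^ k * n + i + 1) - rho (2 ^ k * n₀ + i + 1) := by
      rw [h1]
      apply div_nonneg
      · exact_mod_cast h4
      · positivity
    linarith
  · have : 0 < 1 / (d * L * ((|h (2 ^ k * n₀ + i)| : ℤ) : ℝ)) := by positivity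
    linarith
  · have h2k : 1 ≤ 2 ^ k := Nat.one_le_pow _ _ (by norm_num)
    have hn' : 4 ≤ 2 ^ k * n + i := by nlinarith
    have h1 := key n hn'
    obtain ⟨h2, h3⟩ := hF n hn'
    have h4 := hE n (by omega)
    have hp : (1 : ℝ) ≤ ((|h (2 ^ k * n + i)| : ℤ) : ℝ) := by exact_mod_cast h_pos hn'
    have h5 : 1 / (d * L * ((|h (2 ^ k * n₀ + i)| : ℤ) : ℝ)) ≤
        rho (2 ^ k * n + i + 1) - rho (2 ^ k * n₀ + i + 1) := by
      rw [h1, div_le_div_iff₀ (by positivity) (by positivity), one_mul]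
      have h6 : (((|h (2 ^ k * n + i)| : ℤ)) : ℝ) ≤ L * (F n : ℝ) := by exact_mod_cast h4
      have h7 : (F n : ℝ) ≤ d * (((|h (2 ^ k * n + i + 1)| * |h (2 ^ k * n₀ + i)| -
        |h (2 ^ k * n₀ + i + 1)| * |h (2 ^ k * n + i)| : ℤ)) : ℝ) := by exact_mod_cast h3
      calc (((|h (2 ^ k * n + i)| : ℤ)) : ℝ) * ((|h (2 ^ k * n₀ + i)| : ℤ) : ℝ)
          ≤ (L * (d * (((|h (2 ^ k * n + i + 1)| * |h (2 ^ k * n₀ + i)| -
        |h (2 ^ k * n₀ + i + 1)| * |h (2 ^ k * n + i)| : ℤ)) : ℝ))) *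
              ((|h (2 ^ k * n₀ + i)| : ℤ) : ℝ) := by
            apply mul_le_mul_of_nonneg_right _ (by positivity)
            exact h6.trans (mul_le_mul_of_nonneg_left h7 hLR.le)
        _ = _ := by ring
    linarith

end Pool.Agent.V5helper22.TMF
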