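import Mathlib
import Pool.Agent.Results.MP_e68cb8_nt.TwoSevenths

set_option autoImplicit false

/-!
# The pairs `(|h (4 m)|, |h (4 m + 1)|)` along the multiples of `4 ^ j`
-/

namespace Pool.Agent.V5helper22.TMF

open Pool.Agent.R488.TM

/-- the coefficients of the step of the level `j` -/
def lev : ℕ → ℤ × ℤ × ℤ
  | 0 => (1, 1, 2)
  | j + 1 =>
    (((lev j).2.1 ^ 2 - (lev j).1 ^ 2) ^ 2 + (lev j).2.1 ^ 2 * ((lev j).2.2 - (lev j).1) ^ 2,
      (lev j).2.1 * ((lev j).2.2 - (lev j).1) * ((lev j).2.2 ^ 2 - (lev j).1 ^ 2),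
      (lev j).2.1 ^ 2 * ((lev j).2.2 - (lev j).1) ^ 2 + ((lev j).2.2 ^ 2 - (lev j).2.1 ^ 2) ^ 2)

def A (j : ℕ) : ℤ := (lev j).1
def B (j : ℕ) : ℤ := (lev j).2.1
def C (j : ℕ) : ℤ := (lev j).2.2

lemma A_zero : A 0 = 1 := rfl
lemma B_zero : B 0 = 1 := rfl
lemma C_zero : C 0 = 2 := rfl
lemma A_succ (j : ℕ) : A (j + 1) = (B j ^ 2 - A j ^ 2) ^ 2 + B j ^ 2 * (C j - A j) ^ 2 := rfl
lemma B_succ (j : ℕ) : B (j + 1) = B j * (C j - A j) * (C j ^ 2 - A j ^ 2) := rfl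
lemma C_succ (j : ℕ) : C (j + 1) = B j ^ 2 * (C j - A j) ^ 2 + (C j ^ 2 - B j ^ 2) ^ 2 := rfl

lemma facts (j : ℕ) : 1 ≤ A j ∧ A j ≤ B j ∧ 2 * B j ≤ C j ∧ A j * C j = B j ^ 2 + 1 := by
  induction j with
  | zero => rw [A_zero, B_zero, C_zero]; norm_num
  | succ j ih =>
    obtain ⟨h1, h2, h3, h4⟩ := ih
    rw [A_succ, B_succ, C_succ]
    generalize A j = a at *
    generalize B j = b at *
    generalize C j = c at *
    have hb : 1 ≤ b := by omega
    have hca : 1 ≤ c - a := by omega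
    have hA : 1 ≤ (b ^ 2 - a ^ 2) ^ 2 + b ^ 2 * (c - a) ^ 2 := by
      have : 1 ≤ b * (c - a) := by nlinarith
      nlinarith [sq_nonneg (b ^ 2 - a ^ 2)]
    refine ⟨hA, ?_, ?_, ?_⟩
    · have e : b * (c - a) * (c ^ 2 - a ^ 2) * a -
          ((b ^ 2 - a ^ 2) ^ 2 + b ^ 2 * (c - a) ^ 2) * b = b * (c ^ 2 - a ^ 2 - 1) := by
        have hb2 : b ^ 2 = a * c - 1 := by omega
        rw [hb2]; ring
      have h5 : 0 ≤ b * (c ^ 2 - a ^ 2 - 1) := by
        apply mul_nonneg (by omega)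
        nlinarith
      have h6 : ((b ^ 2 - a ^ 2) ^ 2 + b ^ 2 * (c - a) ^ 2) * a ≤
          b * (c - a) * (c ^ 2 - a ^ 2) * a := by nlinarith
      exact le_of_mul_le_mul_right h6 (by omega)
    · have e : (b ^ 2 * (c - a) ^ 2 + (c ^ 2 - b ^ 2) ^ 2) * b -
          b * (c - a) * (c ^ 2 - a ^ 2) * c = b * (c ^ 2 - a ^ 2 + 1) := by
        have hb2 : b ^ 2 = a * c - 1 := by omega
        rw [hb2]; ring
      have h5 : 0 ≤ b * (c ^ 2 - a ^ 2 + 1) := by
        apply mul_nonneg (by omega)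
        nlinarith
      have h7 : 0 ≤ b * (c - a) * (c ^ 2 - a ^ 2) := by
        apply mul_nonneg (mul_nonneg (by omega) (by omega))
        nlinarith
      have h6 : 2 * (b * (c - a) * (c ^ 2 - a ^ 2)) * b ≤
          (b ^ 2 * (c - a) ^ 2 + (c ^ 2 - b ^ 2) ^ 2) * b := by nlinarith
      exact le_of_mul_le_mul_right h6 (by omega)
    · have hb2 : b ^ 2 = a * c - 1 := by omega
      have : ((b ^ 2 - a ^ 2) ^ 2 + b ^ 2 * (c - a) ^ 2) * (b ^ 2 * (c - a) ^ 2 + (c ^ 2 - b ^ 2) ^ 2)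
          - (b * (c - a) * (c ^ 2 - a ^ 2)) ^ 2 = (a * c - b ^ 2) ^ 4 := by ring
      rw [h4] at this
      nlinarith

lemma t_one : t 1 = -1 := by
  have := t_odd 0
  rw [t_zero] at this
  simpa using this

lemma t_two : t 2 = -1 := by
  have := t_even 1
  rw [t_one] at this
  simpa using this

lemma t_three : t 3 = 1 := by
  have := t_odd 1
  rw [t_one] at this
  simpa using this

/-- the step of the level `j` -/
lemma step (j : ℕ) : ∀ m : ℕ,
    Y (4 ^ j * (m + 1)) = B j * X (4 ^ j * m) + (C j - B j) * Y (4 ^ j * m) ∧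
    X (4 ^ j * (m + 1)) = Y (4 ^ j * (m + 1)) +
      t m * t (m + 1) * (A j * X (4 ^ j * m) + (B j - A j) * Y (4 ^ j * m)) := by
  induction j with
  | zero =>
    intro m
    rw [A_zero, B_zero, C_zero, pow_zero, one_mul, one_mul, X_succ, Y_succ]
    constructor <;> ring_nf
  | succ j ih =>
    intro m
    have e0 : 4 ^ (j + 1) * m = 4 ^ j * (4 * m) := by ring
    have e1 : 4 ^ (j + 1) * (m + 1) = 4 ^ j * (4 * m + 3 + 1) := by ring
    obtain ⟨y1, x1⟩ := ih (4 * m)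
    obtain ⟨y2, x2⟩ := ih (4 * m + 1)
    obtain ⟨y3, x3⟩ := ih (4 * m + 2)
    obtain ⟨y4, x4⟩ := ih (4 * m + 3)
    rw [t4, t41, show t m * -t m = -1 by linear_combination -t_sq m] at x1
    rw [show 4 * m + 1 + 1 = 4 * m + 2 by ring] at y2 x2
    rw [t41, t42, show -t m * -t m = 1 by linear_combination t_sq m] at x2
    rw [show 4 * m + 2 + 1 = 4 * m + 3 by ring] at y3 x3
    rw [t42, t43, show -t m * t m = -1 by linear_combination -t_sq m] at x3
    rw [t43, show t (4 * m + 3 + 1) = t (m + 1) by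
      rw [show 4 * m + 3 + 1 = 4 * (m + 1) by ring, t4]] at x4
    rw [e0, e1, A_succ, B_succ, C_succ]
    constructor
    · rw [y4, x3, y3, x2, y2, x1, y1]; ring
    · rw [x4, y4, x3, y3, x2, y2, x1, y1]; ring

end Pool.Agent.V5helper22.TMF
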