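import Pool.Agent.V5helper22.TMF.Forms

set_option autoImplicit false

namespace Pool.Agent.V5helper22.TMF

open Pool.Agent.R488.TM

lemma two_pow (r : ℕ) : (2 : ℕ) ^ (r + 2) = 4 * 2 ^ r := by rw [pow_add]; ring

lemma Xn (m : ℕ) : 0 ≤ X m := (XY_pos m).1

lemma X_le (m : ℕ) : X m ≤ 2 * Y m := (XY_pos m).2.2.1

/-- the absolute value of `h` as a linear form -/
lemma form (r n i : ℕ) (hi : i < 2 ^ (r + 2)) : |h (2 ^ (r + 2) * n + i)| =
    G (1, 0) i * X (2 ^ r * n) + G (0, 1) i * Y (2 ^ r * n) := by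
  rw [two_pow] at hi ⊢
  rw [mul_assoc, h_block r (2 ^ r * n) i (Dvd.intro _ rfl) hi, G_lin]

lemma cross (r m n i : ℕ) (hi : i + 1 < 2 ^ (r + 2)) :
    |h (2 ^ (r + 2) * n + i + 1)| * |h (2 ^ (r + 2) * m + i)| -
      |h (2 ^ (r + 2) * m + i + 1)| * |h (2 ^ (r + 2) * n + i)| =
    -((G (1, 0) (i + 1) * G (0, 1) i - G (1, 0) i * G (0, 1) (i + 1)) *
      D (2 ^ r * m) (2 ^ r * n)) := by
  rw [Nat.add_assoc _ i 1, Nat.add_assoc _ i 1, form r n _ hi, form r m _ hi,
    form r n i (by omega), form r m i (by omega)]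
  unfold D
  ring

lemma D_neg (m n : ℕ) : D n m = -D m n := by unfold D; ring

/-- all places of a block but the last one -/
lemma att_inner (r i : ℕ) (hi : i + 1 < 2 ^ (r + 2)) : Att (r + 2) i := by
  obtain ⟨p, q, L, hp, ⟨a, ha⟩, ⟨b, hb⟩, h2p, h2q, hL, hXp, hXq, hc, hg⟩ := cone r
  have hr : 1 ≤ 2 ^ r := Nat.one_le_pow _ _ (by norm_num)
  have ha1 : 1 ≤ a := by
    rcases Nat.eq_zero_or_pos a with rfl | h
    · omega
    · exact h
  have hb1 : 1 ≤ b := by
    rcases Nat.eq_zero_or_pos b with rfl | h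
    · omega
    · exact h
  have hG1 : 0 ≤ G (1, 0) i := G_nonneg _ (by norm_num) (by norm_num) i
  have hG2 : 0 ≤ G (0, 1) i := G_nonneg _ (by norm_num) (by norm_num) i
  set L' : ℤ := (2 * G (1, 0) i + G (0, 1) i) * L + 1 with hL'
  have hL'0 : 0 < L' := by
    have : 0 ≤ (2 * G (1, 0) i + G (0, 1) i) * L := mul_nonneg (by omega) (by omega)
    omega
  have hbd : ∀ n (F : ℤ), 0 ≤ F → Y (2 ^ r * n) ≤ L * F → |h (2 ^ (r + 2) * n + i)| ≤ L' * F := by
    intro n F hF h1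
    rw [form r n i (by omega)]
    have h2 := X_le (2 ^ r * n)
    calc G (1, 0) i * X (2 ^ r * n) + G (0, 1) i * Y (2 ^ r * n)
        ≤ G (1, 0) i * (2 * Y (2 ^ r * n)) + G (0, 1) i * Y (2 ^ r * n) := by gcongr
      _ = (2 * G (1, 0) i + G (0, 1) i) * Y (2 ^ r * n) := by ring
      _ ≤ (2 * G (1, 0) i + G (0, 1) i) * (L * F) := by gcongr
      _ ≤ L' * F := by rw [hL']; nlinarith
  have h4r : 4 ≤ 2 ^ (r + 2) := by rw [two_pow]; omega
  have hcr := cross r
  have hval : ∀ n, 1 ≤ n → 4 ≤ 2 ^ (r + 2) * n + i := by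
    intro n hn
    nlinarith
  have hsq := G_det i
  have hcase : G (1, 0) (i + 1) * G (0, 1) i - G (1, 0) i * G (0, 1) (i + 1) = 1 ∨
      G (1, 0) (i + 1) * G (0, 1) i - G (1, 0) i * G (0, 1) (i + 1) = -1 := by
    generalize G (1, 0) (i + 1) * G (0, 1) i - G (1, 0) i * G (0, 1) (i + 1) = z at hsq ⊢
    have hz : (z - 1) * (z + 1) = 0 := by linear_combination hsq
    rcases mul_eq_zero.1 hz with h | h
    · left; omega
    · right; omega
  have hD0 : ∀ m, D m 0 = X m := by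
    intro m
    unfold D
    rw [X_zero, Y_zero]; ring
  rcases hcase with he | he
  · -- the other end
    by_cases h4 : i < 4
    · refine att_intro (n₀ := b) (n₁ := 8) (hval b hb1) 1 L' one_pos hL'0
        (fun n => D (2 ^ r * n) q) (fun n hn => ?_) (fun n hn => ?_)
      · have hn1 : 1 ≤ n := by
          rcases Nat.eq_zero_or_pos n with rfl | h
          · omega
          · exact h
        refine ⟨(hc n hn1).2, ?_⟩
        rw [one_mul, hcr b n i hi, he, hb, one_mul, ← D_neg]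
      · exact hbd n _ (hc n (by omega)).2 (hg n hn).2
    · refine att_intro (n₀ := 0) (n₁ := 1) (by omega) 1 (3 * L') one_pos (by omega)
        (fun n => X (2 ^ r * n)) (fun n hn => ?_) (fun n hn => ?_)
      · refine ⟨Xn _, ?_⟩
        rw [one_mul, hcr 0 n i hi, he, one_mul, ← D_neg, mul_zero, hD0]
      · have h1 : Y (2 ^ r * n) ≤ 3 * X (2 ^ r * n) := Y_le_X (Nat.mul_pos (by omega) hn)
        have h2 := Xn (2 ^ r * n)
        have h3 := hbd n (3 * X (2 ^ r * n)) (by omega) (by nlinarith)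
        calc _ ≤ _ := h3
          _ = _ := by ring
  · refine att_intro (n₀ := a) (n₁ := 8) (hval a ha1) 1 L' one_pos hL'0
      (fun n => D p (2 ^ r * n)) (fun n hn => ?_) (fun n hn => ?_)
    · refine ⟨?_, ?_⟩
      · rcases Nat.eq_zero_or_pos n with rfl | h
        · rw [mul_zero, hD0]; exact Xn _
        · exact (hc n h).1
      · rw [one_mul, hcr a n i hi, he, ha, neg_one_mul, neg_neg]
    · exact hbd n _ (hc n (by omega)).1 (hg n hn).1

/-- the last place of a block -/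
lemma att_last (r : ℕ) : Att (r + 2) (2 ^ (r + 2) - 1) := by
  obtain ⟨p, q, L, hp, ⟨a, ha⟩, ⟨b, hb⟩, h2p, h2q, hL, hXp, hXq, hc, hg⟩ := cone r
  have hr : 1 ≤ 2 ^ r := Nat.one_le_pow _ _ (by norm_num)
  have ha1 : 1 ≤ a := by
    rcases Nat.eq_zero_or_pos a with rfl | h
    · omega
    · exact h
  have hb1 : 1 ≤ b := by
    rcases Nat.eq_zero_or_pos b with rfl | h
    · omega
    · exact h
  obtain ⟨a, rfl⟩ : ∃ n, a = n + 1 := ⟨a - 1, by omega⟩
  obtain ⟨b, rfl⟩ : ∃ n, b = n + 1 := ⟨b - 1, by omega⟩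
  have e1 : ∀ n, 2 ^ (r + 2) * n + (2 ^ (r + 2) - 1) + 1 = 4 * (2 ^ r * (n + 1)) := by
    intro n
    have : 1 ≤ 2 ^ (r + 2) := Nat.one_le_pow _ _ (by norm_num)
    rw [Nat.add_assoc, Nat.sub_add_cancel this, two_pow]; ring
  have e2 : ∀ n, 2 ^ (r + 2) * n + (2 ^ (r + 2) - 1) = 4 * (2 ^ r * (n + 1)) - 1 := by
    intro n
    have := e1 n
    omega
  have f1 : ∀ n, |h (2 ^ (r + 2) * n + (2 ^ (r + 2) - 1) + 1)| = X (2 ^ r * (n + 1)) := by
    intro n
    rw [e1, h_at]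
  have f2 : ∀ n, |h (2 ^ (r + 2) * n + (2 ^ (r + 2) - 1))| =
      |X (2 ^ r * (n + 1)) - Y (2 ^ r * (n + 1))| := by
    intro n
    have h1 : 1 ≤ 2 ^ r * (n + 1) := Nat.mul_pos (by omega) (by omega)
    obtain ⟨m, hm⟩ : ∃ m, 2 ^ r * (n + 1) = m + 1 := ⟨2 ^ r * (n + 1) - 1, by omega⟩
    rw [e2, hm, h_before]
  have fp : |h (2 ^ (r + 2) * a + (2 ^ (r + 2) - 1))| = X p - Y p := by
    rw [f2, ← ha, abs_of_pos (by omega)]
  have fq : |h (2 ^ (r + 2) * b + (2 ^ (r + 2) - 1))| = Y q - X q := by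
    rw [f2, ← hb, abs_of_neg (by omega)]; ring
  have hne : ∀ n, 4 ≤ 2 ^ (r + 2) * n + (2 ^ (r + 2) - 1) →
      X (2 ^ r * (n + 1)) ≠ Y (2 ^ r * (n + 1)) := by
    intro n hn h1
    have h2 := h_pos hn
    rw [f2, h1, sub_self, abs_zero] at h2
    omega
  set F : ℕ → ℤ := fun n => if Y (2 ^ r * (n + 1)) < X (2 ^ r * (n + 1)) then
    D p (2 ^ r * (n + 1)) else D (2 ^ r * (n + 1)) q with hF
  have hF0 : ∀ n, 0 ≤ F n := by
    intro n
    rw [hF]
    dsimp only
    split_ifs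
    · exact (hc (n + 1) (by omega)).1
    · exact (hc (n + 1) (by omega)).2
  have hFE : ∀ n, 8 ≤ n → |h (2 ^ (r + 2) * n + (2 ^ (r + 2) - 1))| ≤ L * F n := by
    intro n hn
    have h1 : |X (2 ^ r * (n + 1)) - Y (2 ^ r * (n + 1))| ≤ Y (2 ^ r * (n + 1)) := by
      rw [abs_le]
      have := Xn (2 ^ r * (n + 1))
      have := X_le (2 ^ r * (n + 1))
      constructor <;> omega
    rw [f2, hF]
    refine h1.trans ?_
    dsimp only
    split_ifs
    · exact (hg (n + 1) (by omega)).1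
    · exact (hg (n + 1) (by omega)).2
  -- the two inequalities
  have hDp : ∀ n, Y (2 ^ r * (n + 1)) < X (2 ^ r * (n + 1)) → F n =
      X (2 ^ r * (n + 1)) * (X p - Y p) - X p * (X (2 ^ r * (n + 1)) - Y (2 ^ r * (n + 1))) := by
    intro n hn
    rw [hF]
    dsimp only
    rw [if_pos hn]
    unfold D
    ring
  have hDq : ∀ n, ¬ Y (2 ^ r * (n + 1)) < X (2 ^ r * (n + 1)) → F n =
      X (2 ^ r * (n + 1)) * (Y q - X q) - X q * (Y (2 ^ r * (n + 1)) - X (2 ^ r * (n + 1))) := by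
    intro n hn
    rw [hF]
    dsimp only
    rw [if_neg hn]
    unfold D
    ring
  have v1 : 4 ≤ 2 ^ (r + 2) * a + (2 ^ (r + 2) - 1) := by
    rw [e2, ← ha]; omega
  have v2 : 4 ≤ 2 ^ (r + 2) * b + (2 ^ (r + 2) - 1) := by
    rw [e2, ← hb]; omega
  by_cases hcmp : X p * (Y q - X q) ≤ X q * (X p - Y p)
  · refine att_intro (n₀ := a) (n₁ := 8) v1 (Y q - X q) L (by omega) (by omega) F
      (fun n hn => ⟨hF0 n, ?_⟩) hFE
    rw [fp, f1, f1, f2, ← ha]
    have h1 := hF0 n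
    by_cases hlt : Y (2 ^ r * (n + 1)) < X (2 ^ r * (n + 1))
    · rw [abs_of_pos (by omega), ← hDp n hlt]
      nlinarith
    · have h2 := hne n hn
      have h3 : X (2 ^ r * (n + 1)) < Y (2 ^ r * (n + 1)) := by omega
      rw [abs_of_neg (by omega)]
      rw [hDq n hlt] at h1 ⊢
      generalize X (2 ^ r * (n + 1)) = x at *
      generalize Y (2 ^ r * (n + 1)) = y at *
      generalize X p = xp at *
      generalize Y p = yp at *
      generalize X q = xq at *
      generalize Y q = yq at *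
      have h4 : (x * (yq - xq) - xq * (y - x)) ≤
          (x * (yq - xq) - xq * (y - x)) * (xp - yp) := by nlinarith
      have h5 : xp * (yq - xq) * (y - x) ≤ xq * (xp - yp) * (y - x) :=
        mul_le_mul_of_nonneg_right hcmp (by omega)
      nlinarith
  · push Not at hcmp
    refine att_intro (n₀ := b) (n₁ := 8) v2 (X p - Y p) L (by omega) (by omega) F
      (fun n hn => ⟨hF0 n, ?_⟩) hFE
    rw [fq, f1, f1, f2, ← hb]
    have h1 := hF0 n
    by_cases hlt : Y (2 ^ r * (n + 1)) < X (2 ^ r * (n + 1))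
    · rw [abs_of_pos (by omega)]
      rw [hDp n hlt] at h1 ⊢
      generalize X (2 ^ r * (n + 1)) = x at *
      generalize Y (2 ^ r * (n + 1)) = y at *
      generalize X p = xp at *
      generalize Y p = yp at *
      generalize X q = xq at *
      generalize Y q = yq at *
      have h4 : (x * (xp - yp) - xp * (x - y)) ≤
          (x * (xp - yp) - xp * (x - y)) * (yq - xq) := by nlinarith
      have h5 : xq * (xp - yp) * (x - y) ≤ xp * (yq - xq) * (x - y) :=
        mul_le_mul_of_nonneg_right hcmp.le (by omega)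
      nlinarith
    · have h2 := hne n hn
      have h3 : X (2 ^ r * (n + 1)) < Y (2 ^ r * (n + 1)) := by omega
      have h4 := hDq n hlt
      rw [abs_of_neg (by omega), neg_sub, ← h4]
      nlinarith

lemma att_two (r i : ℕ) (hi : i < 2 ^ (r + 2)) : Att (r + 2) i := by
  by_cases h : i + 1 < 2 ^ (r + 2)
  · exact att_inner r i h
  · have : i = 2 ^ (r + 2) - 1 := by omega
    rw [this]
    exact att_last r

/-- from the residues modulo `2 ^ (k + 1)` to the residues modulo `2 ^ k` -/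
lemma att_down {k i : ℕ} (h1 : Att (k + 1) i) (h2 : Att (k + 1) (i + 2 ^ k)) : Att k i := by
  obtain ⟨a, ha, ha1, c, hc, m1, hm1⟩ := h1
  obtain ⟨b, hb, hb1, d, hd, m2, hm2⟩ := h2
  have e1 : ∀ n, 2 ^ (k + 1) * n + i = 2 ^ k * (2 * n) + i := by intro n; ring
  have e2 : ∀ n, 2 ^ (k + 1) * n + (i + 2 ^ k) = 2 ^ k * (2 * n + 1) + i := by intro n; ring
  simp only [e1, e2] at ha ha1 hc hm1 hb hb1 hd hm2
  rcases le_total (rho (2 ^ k * (2 * a) + i + 1)) (rho (2 ^ k * (2 * b + 1) + i + 1)) with hle | hle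
  · refine ⟨2 * a, ha, fun n hn => ?_, min c d, lt_min hc (hle.trans_lt hd), 2 * m1 + 2 * m2 + 1,
      fun n hn => ?_⟩
    · rcases Nat.even_or_odd' n with ⟨v, rfl | rfl⟩
      · exact ha1 v hn
      · exact hle.trans (hb1 v hn)
    · rcases Nat.even_or_odd' n with ⟨v, rfl | rfl⟩
      · exact (min_le_left _ _).trans (hm1 v (by omega))
      · exact (min_le_right _ _).trans (hm2 v (by omega))
  · refine ⟨2 * b + 1, hb, fun n hn => ?_, min c d, lt_min (hle.trans_lt hc) hd,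
      2 * m1 + 2 * m2 + 1, fun n hn => ?_⟩
    · rcases Nat.even_or_odd' n with ⟨v, rfl | rfl⟩
      · exact hle.trans (ha1 v hn)
      · exact hb1 v hn
    · rcases Nat.even_or_odd' n with ⟨v, rfl | rfl⟩
      · exact (min_le_left _ _).trans (hm1 v (by omega))
      · exact (min_le_right _ _).trans (hm2 v (by omega))

theorem att (k i : ℕ) (hk : 1 ≤ k) (hi : i < 2 ^ k) : Att k i := by
  rcases Nat.lt_or_ge k 2 with h | h
  · have : k = 1 := by omega
    subst this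
    exact att_down (att_two 0 i (by omega)) (att_two 0 (i + 2 ^ 1) (by omega))
  · obtain ⟨r, rfl⟩ : ∃ r, k = r + 2 := ⟨k - 2, by omega⟩
    exact att_two r i hi

/-- the least ratio after the multiples of `2 ^ k` -/
lemma first (r n : ℕ) (hn : 1 ≤ n) :
    rho (4 * (4 ^ (r / 2) * 2) + 1) ≤ rho (2 ^ (r + 2) * n + 1) := by
  obtain ⟨p, q, L, hp, ⟨a, ha⟩, ⟨b, hb⟩, h2p, h2q, hL, hXp, hXq, hc, hg⟩ := cone r
  have h1 := (hc n hn).1
  have hr : 1 ≤ 2 ^ r := Nat.one_le_pow _ _ (by norm_num)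
  have h2 : 1 ≤ X (2 ^ r * n) := X_pos (Nat.mul_pos (by omega) hn)
  have h3 : 1 ≤ X p := X_pos (by omega)
  rw [← hp, rho_succ, rho_succ, two_pow, mul_assoc,
    (Pool.Agent.Results.MP_e68cb8_nt.TwoSevenths.abs_h _).1,
    (Pool.Agent.Results.MP_e68cb8_nt.TwoSevenths.abs_h _).2.1,
    (Pool.Agent.Results.MP_e68cb8_nt.TwoSevenths.abs_h _).1,
    (Pool.Agent.Results.MP_e68cb8_nt.TwoSevenths.abs_h _).2.1]
  have h4 : (1 : ℝ) ≤ X (2 ^ r * n) := by exact_mod_cast h2
  have h5 : (1 : ℝ) ≤ X p := by exact_mod_cast h3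
  rw [div_le_div_iff₀ (by positivity) (by positivity)]
  have h6 : Y p * X (2 ^ r * n) ≤ Y (2 ^ r * n) * X p := by
    unfold D at h1
    linarith
  exact_mod_cast h6

end Pool.Agent.V5helper22.TMF
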